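import Mathlib

set_option autoImplicit false

/-! Local (vector-wise) propagation in both directions for matrix-valued weighted shifts,
already under quadratic hyponormality. -/

namespace Pool.Agent.Results.MP_c6f870_an.LocalPropagation

open scoped InnerProductSpace ComplexOrder
open ContinuousLinearMap

noncomputable section

/-- `ℓ²(E)`. -/
abbrev Seq (E : Type) [NormedAddCommGroup E] [InnerProductSpace ℂ E] : Type :=
  lp (fun _ : ℕ => E) 2

/-- The Hilbert space adjoint `T*`. -/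
def adj {H : Type} [NormedAddCommGroup H] [InnerProductSpace ℂ H] [CompleteSpace H]
    (T : H →L[ℂ] H) : H →L[ℂ] H := star T

/-- `T x`. -/
def ap {H : Type} [NormedAddCommGroup H] [InnerProductSpace ℂ H]
    (T : H →L[ℂ] H) (x : H) : H := T x

/-- `S + T`. -/
def opAdd {H : Type} [NormedAddCommGroup H] [InnerProductSpace ℂ H]
    (S T : H →L[ℂ] H) : H →L[ℂ] H := S + T

/-- `c T`. -/
def opSMul {H : Type} [NormedAddCommGroup H] [InnerProductSpace ℂ H]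
    (c : ℂ) (T : H →L[ℂ] H) : H →L[ℂ] H := c • T

/-- The product `S T`. -/
def opMul {H : Type} [NormedAddCommGroup H] [InnerProductSpace ℂ H]
    (S T : H →L[ℂ] H) : H →L[ℂ] H := S ∘L T

/-- The self-commutator `x ↦ (T* T - T T*) x`. -/
def selfComm {H : Type} [NormedAddCommGroup H] [InnerProductSpace ℂ H] [CompleteSpace H]
    (T : H →L[ℂ] H) (x : H) : H := ap (adj T) (ap T x) - ap T (ap (adj T) x)

/-- `T` is hyponormal: `T* T - T T* ≥ 0`. -/
def Hyponormal {H : Type} [NormedAddCommGroup H] [InnerProductSpace ℂ H] [CompleteSpace H]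
    (T : H →L[ℂ] H) : Prop :=
  ∀ x : H, 0 ≤ (⟪selfComm T x, x⟫_ℂ).re

/-- `T + l T²`. -/
def pencil {H : Type} [NormedAddCommGroup H] [InnerProductSpace ℂ H]
    (T : H →L[ℂ] H) (l : ℂ) : H →L[ℂ] H := opAdd T (opSMul l (opMul T T))

/-- `T + l T² + m T³`. -/
def cubicPencil {H : Type} [NormedAddCommGroup H] [InnerProductSpace ℂ H]
    (T : H →L[ℂ] H) (l m : ℂ) : H →L[ℂ] H :=
  opAdd (pencil T l) (opSMul m (opMul T (opMul T T)))

/-- `T` is quadratically hyponormal: `T + λ T²` is hyponormal for all complex `λ`. -/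
def QuadraticallyHyponormal {H : Type} [NormedAddCommGroup H] [InnerProductSpace ℂ H]
    [CompleteSpace H] (T : H →L[ℂ] H) : Prop :=
  ∀ l : ℂ, Hyponormal (pencil T l)

/-- `T` is cubically hyponormal: `T + λ T² + μ T³` is hyponormal for all complex `λ, μ`. -/
def CubicallyHyponormal {H : Type} [NormedAddCommGroup H] [InnerProductSpace ℂ H]
    [CompleteSpace H] (T : H →L[ℂ] H) : Prop :=
  ∀ l m : ℂ, Hyponormal (cubicPencil T l m)

/-- The Hilbert space `ℓ²(ℂ^p)`. -/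
abbrev Hp (p : ℕ) : Type := Seq (EuclideanSpace ℂ (Fin p))

instance hpComplete (p : ℕ) : CompleteSpace (Hp p) := inferInstance

/-- Bounded operators on `ℓ²(ℂ^p)`. -/
abbrev Op (p : ℕ) : Type := Hp p →L[ℂ] Hp p

/-- `W x` for an operator on `ℓ²(ℂ^p)`. -/
def apply {p : ℕ} (W : Op p) (x : Hp p) : Hp p := ap W x

/-- Quadratic hyponormality of an operator on `ℓ²(ℂ^p)`. -/
def Quad {p : ℕ} (W : Op p) : Prop := QuadraticallyHyponormal W

/-- Cubic hyponormality of an operator on `ℓ²(ℂ^p)`. -/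
def Cub {p : ℕ} (W : Op p) : Prop := CubicallyHyponormal W

/-- The `n`-th entry of an element of `ℓ²(E)`. -/
def seqEntry {E : Type} [NormedAddCommGroup E] [InnerProductSpace ℂ E] (x : Seq E) (n : ℕ) : E :=
  x n

/-- The `n`-th entry of `x ∈ ℓ²(ℂ^p)`, a vector of `ℂ^p`. -/
def entry {p : ℕ} (x : Hp p) (n : ℕ) : Fin p → ℂ :=
  WithLp.ofLp (seqEntry (E := EuclideanSpace ℂ (Fin p)) x n)

/-- A sequence of positive (definite, hence invertible) weights. -/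
def PositiveWeights {p : ℕ} (A : ℕ → Matrix (Fin p) (Fin p) ℂ) : Prop :=
  ∀ n, (A n).PosDef

/-- The bounded operator `W` is the weighted shift
`W (x₀, x₁, x₂, …) = (0, A₀ x₀, A₁ x₁, …)` on `ℓ²(ℂ^p)`. -/
def IsWeightedShift {p : ℕ} (A : ℕ → Matrix (Fin p) (Fin p) ℂ) (W : Op p) : Prop :=
  ∀ x : Hp p, entry (apply W x) 0 = 0 ∧
    ∀ n : ℕ, entry (apply W x) (n + 1) = (A n).mulVec (entry x n)

/-- Local propagation in both directions: if `A k x = A (k+1) x` for some `k ≥ 1` then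
`A n x = A 1 x` for all `n ≥ 1`. -/
def LocallyPropagates {p : ℕ} (A : ℕ → Matrix (Fin p) (Fin p) ℂ) : Prop :=
  ∀ (x : Fin p → ℂ) (k : ℕ), 1 ≤ k → (A k).mulVec x = (A (k + 1)).mulVec x →
    ∀ n : ℕ, 1 ≤ n → (A n).mulVec x = (A 1).mulVec x

section core

variable {E : Type} [NormedAddCommGroup E] [InnerProductSpace ℂ E] [FiniteDimensional ℂ E]

lemma hypo_norm {H : Type} [NormedAddCommGroup H] [InnerProductSpace ℂ H] [CompleteSpace H]
    {T : H →L[ℂ] H} (h : Hyponormal T) (x : H) : ‖adjoint T x‖ ^ 2 ≤ ‖T x‖ ^ 2 := by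
  have h1 := h x
  rw [selfComm, ap, ap, ap, ap, adj, star_eq_adjoint, inner_sub_left, Complex.sub_re, adjoint_inner_left] at h1
  rw [← adjoint_inner_right T (adjoint T x) x] at h1
  have e1 : (⟪T x, T x⟫_ℂ).re = ‖T x‖ ^ 2 := inner_self_eq_norm_sq (𝕜 := ℂ) _
  have e2 : (⟪adjoint T x, adjoint T x⟫_ℂ).re = ‖adjoint T x‖ ^ 2 :=
    inner_self_eq_norm_sq (𝕜 := ℂ) _
  rw [e1, e2] at h1
  linarith

variable (L : ℕ → E →ₗ[ℂ] E)
  (W : Seq E →L[ℂ] Seq E)
  (hW : ∀ x : Seq E, (W x) 0 = 0 ∧ ∀ n : ℕ, (W x) (n + 1) = L n (x n))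
  (hsym : ∀ n, (L n).IsSymmetric)
  (hpos : ∀ n x, x ≠ 0 → 0 < (⟪L n x, x⟫_ℂ).re)

omit [FiniteDimensional ℂ E] in
include hW in
lemma W_single (n : ℕ) (u : E) :
    W (lp.single 2 n u) = lp.single 2 (n + 1) (L n u) := by
  ext i
  rcases i with _ | i
  · rw [(hW _).1, lp.single_apply_ne _ _ _ (by omega)]
  · rw [(hW _).2]
    by_cases h : i = n
    · subst h
      rw [lp.single_apply_self, lp.single_apply_self]
    · rw [lp.single_apply_ne _ _ _ h, lp.single_apply_ne _ _ _ (by omega), map_zero]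

include hW hsym in
lemma Wadj_apply (x : Seq E) (n : ℕ) : (adjoint W x) n = L n (x (n + 1)) := by
  refine ext_inner_left ℂ fun u => ?_
  have h1 : ⟪(lp.single 2 n u : Seq E), adjoint W x⟫_ℂ = ⟪u, (adjoint W x) n⟫_ℂ :=
    lp.inner_single_left (G := fun _ : ℕ => E) n u _
  have h2 : ⟪(lp.single 2 (n + 1) (L n u) : Seq E), x⟫_ℂ = ⟪L n u, x (n + 1)⟫_ℂ :=
    lp.inner_single_left (G := fun _ : ℕ => E) (n + 1) (L n u) _
  rw [← h1, adjoint_inner_right, W_single L W hW, h2, hsym n]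

omit [FiniteDimensional ℂ E] in
lemma sum_sq_le (y : Seq E) (F : Finset ℕ) : ∑ n ∈ F, ‖y n‖ ^ 2 ≤ ‖y‖ ^ 2 := by
  have h := lp.sum_rpow_le_norm_rpow (p := 2) (E := fun _ : ℕ => E) (by norm_num) y F
  simpa using h

omit [FiniteDimensional ℂ E] in
lemma inner_single_single (i k : ℕ) (h : i ≠ k) (u w : E) :
    ⟪(lp.single 2 i u : Seq E), (lp.single 2 k w : Seq E)⟫_ℂ = 0 := by
  have h2 : ⟪(lp.single 2 i u : Seq E), (lp.single 2 k w : Seq E)⟫_ℂ
      = ⟪u, (lp.single 2 k w : Seq E) i⟫_ℂ :=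
    lp.inner_single_left (G := fun _ : ℕ => E) i u _
  rw [h2, lp.single_apply_ne _ _ _ h, inner_zero_right]

omit [FiniteDimensional ℂ E] in
lemma norm_single' (i : ℕ) (u : E) : ‖(lp.single 2 i u : Seq E)‖ = ‖u‖ :=
  lp.norm_single (E := fun _ : ℕ => E) (by norm_num) i u

omit [FiniteDimensional ℂ E] in
lemma norm_three (i k l : ℕ) (h1 : i ≠ k) (h2 : i ≠ l) (h3 : k ≠ l) (u w z : E) :
    ‖(lp.single 2 i u + lp.single 2 k w + lp.single 2 l z : Seq E)‖ ^ 2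
      = ‖u‖ ^ 2 + ‖w‖ ^ 2 + ‖z‖ ^ 2 := by
  rw [@norm_add_sq ℂ, inner_add_left, inner_single_single i l h2, inner_single_single k l h3,
    @norm_add_sq ℂ, inner_single_single i k h1]
  simp only [norm_single']
  simp

/-- The test vector. -/
def tv (j : ℕ) (s t : ℝ) (v ζ Cv : E) : Seq E :=
  lp.single 2 j (((s ^ 2 : ℝ) : ℂ) • ζ) + lp.single 2 (j + 1) (((-(s * t) : ℝ) : ℂ) • v)
    + lp.single 2 (j + 2) v + lp.single 2 (j + 3) (((-(s * t) : ℝ) : ℂ) • v)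
    + lp.single 2 (j + 4) (((s ^ 2 * t : ℝ) : ℂ) • Cv)

omit [FiniteDimensional ℂ E] in
include hW in
lemma T_tv (j : ℕ) (s t : ℝ) (v ζ : E) (hζ : L j ζ = ((t ^ 3 : ℝ) : ℂ) • v)
    (h1 : L (j + 1) v = (t : ℂ) • v) (h2 : L (j + 2) v = (t : ℂ) • v) :
    (W + (s : ℂ) • W ^ 2) (tv j s t v ζ (L (j + 3) v)) =
      lp.single 2 (j + 1) (((s ^ 2 * t ^ 3 : ℝ) : ℂ) • v)
      + lp.single 2 (j + 2) (((-(s * t ^ 2) + s ^ 3 * t ^ 4 : ℝ) : ℂ) • v)
      + lp.single 2 (j + 3) (((t - s ^ 2 * t ^ 3 : ℝ) : ℂ) • v)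
      + lp.single 2 (j + 6) (((s ^ 3 * t : ℝ) : ℂ) • L (j + 5) (L (j + 4) (L (j + 3) v))) := by
  have key : ∀ (n : ℕ) (c : ℝ) (u : E), W (lp.single 2 n ((c : ℂ) • u)) =
      (c : ℂ) • lp.single 2 (n + 1) (L n u) := by
    intro n c u
    rw [W_single L W hW, map_smul, lp.single_smul]
  have hx : tv j s t v ζ (L (j + 3) v) = ((s ^ 2 : ℝ) : ℂ) • lp.single 2 j ζ
      + ((-(s * t) : ℝ) : ℂ) • lp.single 2 (j + 1) v
      + ((1 : ℝ) : ℂ) • lp.single 2 (j + 2) v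
      + ((-(s * t) : ℝ) : ℂ) • lp.single 2 (j + 3) v
      + ((s ^ 2 * t : ℝ) : ℂ) • lp.single 2 (j + 4) (L (j + 3) v) := by
    unfold tv
    simp only [lp.single_smul, Complex.ofReal_one, one_smul]
  have e0 : W (lp.single 2 j ζ) = ((t ^ 3 : ℝ) : ℂ) • lp.single 2 (j + 1) v := by
    rw [W_single L W hW, hζ, lp.single_smul]
  have e1 : W (lp.single 2 (j + 1) v) = (t : ℂ) • lp.single 2 (j + 2) v := by
    rw [W_single L W hW, h1, lp.single_smul]
  have e2 : W (lp.single 2 (j + 2) v) = (t : ℂ) • lp.single 2 (j + 3) v := by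
    rw [W_single L W hW, h2, lp.single_smul]
  have e3 : W (lp.single 2 (j + 3) v) = lp.single 2 (j + 4) (L (j + 3) v) := by
    rw [W_single L W hW]
  have e4 : W (lp.single 2 (j + 4) (L (j + 3) v))
      = lp.single 2 (j + 5) (L (j + 4) (L (j + 3) v)) := by
    rw [W_single L W hW]
  have e5 : W (lp.single 2 (j + 5) (L (j + 4) (L (j + 3) v)))
      = lp.single 2 (j + 6) (L (j + 5) (L (j + 4) (L (j + 3) v))) := by
    rw [W_single L W hW]
  have e6 : (W ^ 2) (tv j s t v ζ (L (j + 3) v)) = W (W (tv j s t v ζ (L (j + 3) v))) := by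
    rw [pow_two]; rfl
  rw [add_apply, smul_apply, e6, hx]
  simp only [map_add, map_smul, e0, e1, e2, e3, e4, e5, lp.single_smul]
  push_cast
  module

omit [FiniteDimensional ℂ E] in
lemma add_app (f g : Seq E) (n : ℕ) : (f + g) n = f n + g n := rfl

omit [FiniteDimensional ℂ E] in
lemma smul_app (c : ℂ) (g : Seq E) (n : ℕ) : (c • g) n = c • g n := rfl

include hW hsym in
lemma Tadj_apply (s : ℝ) (y : Seq E) (n : ℕ) :
    ((adjoint (W + (s : ℂ) • W ^ 2)) y : Seq E) n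
      = L n (y (n + 1)) + (s : ℂ) • L n (L (n + 1) (y (n + 2))) := by
  have h1 : (adjoint (W + (s : ℂ) • W ^ 2)) y
      = adjoint W y + (s : ℂ) • adjoint W (adjoint W y) := by
    refine ext_inner_right ℂ fun z => ?_
    rw [adjoint_inner_left, add_apply, smul_apply, pow_two, inner_add_left, inner_add_right,
      inner_smul_left, inner_smul_right, adjoint_inner_left, adjoint_inner_left,
      adjoint_inner_left, Complex.conj_ofReal]
    rfl
  rw [h1, add_app, smul_app, Wadj_apply L W hW hsym,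
    Wadj_apply L W hW hsym, Wadj_apply L W hW hsym]

omit [FiniteDimensional ℂ E] in
lemma tv_0 (j : ℕ) (s t : ℝ) (v ζ Cv : E) : tv j s t v ζ Cv j = ((s ^ 2 : ℝ) : ℂ) • ζ := by
  simp only [tv, add_app, lp.single_apply, Pi.single_apply]
  simp

omit [FiniteDimensional ℂ E] in
lemma tv_1 (j : ℕ) (s t : ℝ) (v ζ Cv : E) :
    tv j s t v ζ Cv (j + 1) = ((-(s * t) : ℝ) : ℂ) • v := by
  simp only [tv, add_app, lp.single_apply, Pi.single_apply]
  simp

omit [FiniteDimensional ℂ E] in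
lemma tv_2 (j : ℕ) (s t : ℝ) (v ζ Cv : E) :
    tv j s t v ζ Cv (j + 2) = v := by
  simp only [tv, add_app, lp.single_apply, Pi.single_apply]
  simp

omit [FiniteDimensional ℂ E] in
lemma tv_3 (j : ℕ) (s t : ℝ) (v ζ Cv : E) :
    tv j s t v ζ Cv (j + 3) = ((-(s * t) : ℝ) : ℂ) • v := by
  simp only [tv, add_app, lp.single_apply, Pi.single_apply]
  simp

omit [FiniteDimensional ℂ E] in
lemma tv_4 (j : ℕ) (s t : ℝ) (v ζ Cv : E) :
    tv j s t v ζ Cv (j + 4) = ((s ^ 2 * t : ℝ) : ℂ) • Cv := by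
  simp only [tv, add_app, lp.single_apply, Pi.single_apply]
  simp

omit [FiniteDimensional ℂ E] in
lemma norm_T_tv (j : ℕ) (a b c d : ℝ) (v w : E) :
    ‖(lp.single 2 (j + 1) ((a : ℂ) • v) + lp.single 2 (j + 2) ((b : ℂ) • v)
      + lp.single 2 (j + 3) ((c : ℂ) • v) + lp.single 2 (j + 6) ((d : ℂ) • w) : Seq E)‖ ^ 2
      = a ^ 2 * ‖v‖ ^ 2 + b ^ 2 * ‖v‖ ^ 2 + c ^ 2 * ‖v‖ ^ 2 + d ^ 2 * ‖w‖ ^ 2 := by
  rw [@norm_add_sq ℂ, norm_three _ _ _ (by omega) (by omega) (by omega), inner_add_left,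
    inner_add_left, inner_single_single _ _ (by omega), inner_single_single _ _ (by omega),
    inner_single_single _ _ (by omega)]
  simp only [norm_single', norm_smul, Complex.norm_real, Real.norm_eq_abs, mul_pow, sq_abs]
  simp

/-- The fundamental inequality. -/
lemma fund {M N : ℝ} (hM : 0 ≤ M) (h : ∀ s : ℝ, 0 < s → s < 1 → s ^ 4 * M ≤ s ^ 6 * N) :
    M = 0 := by
  by_contra hne
  have hMp : 0 < M := lt_of_le_of_ne hM (Ne.symm hne)
  have hN : 0 ≤ |N| := abs_nonneg N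
  set s : ℝ := Real.sqrt (M / (2 * (|N| + M + 1))) with hs
  have hden : 0 < 2 * (|N| + M + 1) := by positivity
  have hq : 0 < M / (2 * (|N| + M + 1)) := by positivity
  have hs0 : 0 < s := Real.sqrt_pos.mpr hq
  have hs2 : s ^ 2 = M / (2 * (|N| + M + 1)) := Real.sq_sqrt hq.le
  have hs2lt : s ^ 2 < 1 := by
    rw [hs2, div_lt_one hden]; linarith
  have hs1 : s < 1 := by nlinarith
  have h1 := h s hs0 hs1
  have h4 : 0 < s ^ 4 := by positivity
  have h2 : s ^ 6 * N = s ^ 4 * (s ^ 2 * N) := by ring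
  rw [h2] at h1
  have h3 : M ≤ s ^ 2 * N := le_of_mul_le_mul_left h1 h4
  have h5 : s ^ 2 * N ≤ s ^ 2 * |N| := mul_le_mul_of_nonneg_left (le_abs_self N) (by positivity)
  have h6 : s ^ 2 * |N| < M := by
    rw [hs2, div_mul_eq_mul_div, div_lt_iff₀ hden]
    nlinarith
  linarith

omit [FiniteDimensional ℂ E] in
lemma tv_5 (j : ℕ) (s t : ℝ) (v ζ Cv : E) :
    tv j s t v ζ Cv (j + 5) = 0 := by
  simp only [tv, add_app, lp.single_apply, Pi.single_apply]
  simp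

include hW hsym in
lemma comps (j : ℕ) (s t : ℝ) (v ζ : E)
    (h1 : L (j + 1) v = (t : ℂ) • v) (h2 : L (j + 2) v = (t : ℂ) • v) :
    ((adjoint (W + (s : ℂ) • W ^ 2)) (tv j s t v ζ (L (j + 3) v)) : Seq E) (j + 1)
      = ((t - s ^ 2 * t ^ 3 : ℝ) : ℂ) • v ∧
    ((adjoint (W + (s : ℂ) • W ^ 2)) (tv j s t v ζ (L (j + 3) v)) : Seq E) (j + 2)
      = ((-(s * t ^ 2) : ℝ) : ℂ) • v + ((s ^ 3 * t : ℝ) : ℂ) • L (j + 2) (L (j + 3) (L (j + 3) v)) ∧
    ((adjoint (W + (s : ℂ) • W ^ 2)) (tv j s t v ζ (L (j + 3) v)) : Seq E) (j + 3)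
      = ((s ^ 2 * t : ℝ) : ℂ) • L (j + 3) (L (j + 3) v) := by
  refine ⟨?_, ?_, ?_⟩
  · rw [Tadj_apply L W hW hsym, show j + 1 + 1 = j + 2 from rfl, show j + 1 + 2 = j + 3 from rfl,
      tv_2, tv_3, map_smul, h2, map_smul, map_smul, h1]
    push_cast
    module
  · rw [Tadj_apply L W hW hsym, show j + 2 + 1 = j + 3 from rfl, show j + 2 + 2 = j + 4 from rfl,
      tv_3, tv_4, map_smul, h2, map_smul, map_smul]
    push_cast
    module
  · rw [Tadj_apply L W hW hsym, show j + 3 + 1 = j + 4 from rfl, show j + 3 + 2 = j + 5 from rfl,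
      tv_4, tv_5, map_smul, map_zero, map_zero, smul_zero, add_zero]

include hsym in
omit [FiniteDimensional ℂ E] in
lemma norm_mid (j : ℕ) (s t : ℝ) (v P : E) (h2 : L (j + 2) v = (t : ℂ) • v) :
    ‖((-(s * t ^ 2) : ℝ) : ℂ) • v + ((s ^ 3 * t : ℝ) : ℂ) • L (j + 2) P‖ ^ 2
      = s ^ 2 * t ^ 4 * ‖v‖ ^ 2 - 2 * s ^ 4 * t ^ 4 * (⟪v, P⟫_ℂ).re
        + s ^ 6 * t ^ 2 * ‖L (j + 2) P‖ ^ 2 := by
  have h3 : ⟪v, L (j + 2) P⟫_ℂ = (t : ℂ) * ⟪v, P⟫_ℂ := by
    rw [← hsym (j + 2) v P, h2, inner_smul_left, Complex.conj_ofReal]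
  rw [@norm_add_sq ℂ, norm_smul, norm_smul, inner_smul_left, inner_smul_right, h3]
  simp only [Complex.norm_real, Real.norm_eq_abs, mul_pow, sq_abs, Complex.conj_ofReal]
  have h4 : RCLike.re (((-(s * t ^ 2) : ℝ) : ℂ) * (((s ^ 3 * t : ℝ) : ℂ) * ((t : ℂ) * ⟪v, P⟫_ℂ)))
      = (-(s * t ^ 2)) * (s ^ 3 * t) * t * (⟪v, P⟫_ℂ).re := by
    rw [show (((-(s * t ^ 2) : ℝ) : ℂ) * (((s ^ 3 * t : ℝ) : ℂ) * ((t : ℂ) * ⟪v, P⟫_ℂ)))
      = (((-(s * t ^ 2)) * (s ^ 3 * t) * t : ℝ) : ℂ) * ⟪v, P⟫_ℂ by push_cast; ring]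
    exact Complex.re_ofReal_mul _ _
  rw [h4]
  ring

omit [FiniteDimensional ℂ E] in
lemma norm_diff (t : ℝ) (v P : E) :
    ‖P - ((t ^ 2 : ℝ) : ℂ) • v‖ ^ 2 = ‖P‖ ^ 2 - 2 * t ^ 2 * (⟪v, P⟫_ℂ).re + t ^ 4 * ‖v‖ ^ 2 := by
  rw [@norm_sub_sq ℂ, norm_smul, inner_smul_right]
  have h4 : RCLike.re (((t ^ 2 : ℝ) : ℂ) * ⟪P, v⟫_ℂ) = t ^ 2 * (⟪v, P⟫_ℂ).re := by
    rw [← inner_conj_symm v P, Complex.conj_re]
    exact Complex.re_ofReal_mul _ _
  rw [h4, Complex.norm_real, Real.norm_eq_abs, mul_pow, sq_abs]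
  ring

/-- abbreviation for the property that we use. -/
def QH : Prop := ∀ s : ℝ, ∀ x : Seq E,
  ‖(adjoint (W + (s : ℂ) • W ^ 2)) x‖ ^ 2 ≤ ‖(W + (s : ℂ) • W ^ 2) x‖ ^ 2

include hW hsym in
lemma ineq (hQ : QH W) (j : ℕ) (s t : ℝ) (v ζ : E) (hζ : L j ζ = ((t ^ 3 : ℝ) : ℂ) • v)
    (h1 : L (j + 1) v = (t : ℂ) • v) (h2 : L (j + 2) v = (t : ℂ) • v) (K : ℝ) 
    (hK : s ^ 4 * K + ∑ n ∈ {j + 1, j + 2, j + 3},
      ‖((adjoint (W + (s : ℂ) • W ^ 2)) (tv j s t v ζ (L (j + 3) v)) : Seq E) n‖ ^ 2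
      ≤ ‖(adjoint (W + (s : ℂ) • W ^ 2)) (tv j s t v ζ (L (j + 3) v))‖ ^ 2) :
    s ^ 4 * (K + t ^ 2 * ‖L (j + 3) (L (j + 3) v) - ((t ^ 2 : ℝ) : ℂ) • v‖ ^ 2)
      ≤ s ^ 6 * (t ^ 8 * ‖v‖ ^ 2 + t ^ 2 * ‖L (j + 5) (L (j + 4) (L (j + 3) v))‖ ^ 2) := by
  have h := hK.trans (hQ s _)
  rw [T_tv L W hW j s t v ζ hζ h1 h2, norm_T_tv] at h
  obtain ⟨c1, c2, c3⟩ := comps L W hW hsym j s t v ζ h1 h2
  rw [Finset.sum_insert (by simp), Finset.sum_insert (by simp), Finset.sum_singleton, c1, c2, c3,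
    norm_mid L hsym j s t v _ h2] at h
  rw [norm_diff]
  simp only [norm_smul, Complex.norm_real, Real.norm_eq_abs, mul_pow, sq_abs] at h
  have h7 : 0 ≤ s ^ 6 * t ^ 2 * ‖L (j + 2) (L (j + 3) (L (j + 3) v))‖ ^ 2 := by positivity
  have e1 : (s ^ 2) ^ 2 = s ^ 4 := by ring
  have e2 : (s ^ 3) ^ 2 = s ^ 6 := by ring
  have e3 : (t ^ 3) ^ 2 = t ^ 6 := by ring
  rw [e1, e2, e3] at h
  nlinarith [h, h7]

omit [FiniteDimensional ℂ E] in
include hpos in
lemma inj (n : ℕ) : Function.Injective (L n) := by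
  rw [injective_iff_map_eq_zero]
  intro x hx
  by_contra hne
  have := hpos n x hne
  rw [hx, inner_zero_left] at this
  simp at this

include hpos in
lemma surj (n : ℕ) (v : E) : ∃ z, L n z = v :=
  (LinearMap.injective_iff_surjective.mp (inj L hpos n)) v

omit [FiniteDimensional ℂ E] in
include hpos in
lemma sqrt_eig (n : ℕ) (v : E) (t : ℝ) (ht : 0 < t)
    (h : L n (L n v) = ((t ^ 2 : ℝ) : ℂ) • v) : L n v = (t : ℂ) • v := by
  by_contra hne
  have hw : L n v - (t : ℂ) • v ≠ 0 := sub_ne_zero.mpr hne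
  have h1 : L n (L n v - (t : ℂ) • v) = ((-t : ℝ) : ℂ) • (L n v - (t : ℂ) • v) := by
    rw [map_sub, map_smul, h]
    push_cast
    module
  have h2 := hpos n _ hw
  rw [h1, inner_smul_left, Complex.conj_ofReal, Complex.re_ofReal_mul] at h2
  have h3 : 0 ≤ (⟪L n v - (t : ℂ) • v, L n v - (t : ℂ) • v⟫_ℂ).re := inner_self_nonneg (𝕜 := ℂ)
  nlinarith

include hW hsym hpos in
lemma fwd (hQ : QH W) (j : ℕ) (t : ℝ) (ht : 0 < t) (v : E)
    (h1 : L (j + 1) v = (t : ℂ) • v) (h2 : L (j + 2) v = (t : ℂ) • v) :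
    L (j + 3) v = (t : ℂ) • v := by
  obtain ⟨ζ, hζ⟩ := surj L hpos j (((t ^ 3 : ℝ) : ℂ) • v)
  have hf : (0 + t ^ 2 * ‖L (j + 3) (L (j + 3) v) - ((t ^ 2 : ℝ) : ℂ) • v‖ ^ 2) = 0 := by
    refine fund (N := t ^ 8 * ‖v‖ ^ 2 + t ^ 2 * ‖L (j + 5) (L (j + 4) (L (j + 3) v))‖ ^ 2)
      (by positivity) fun s _ _ => ?_
    refine ineq L W hW hsym hQ j s t v ζ hζ h1 h2 0 ?_
    rw [mul_zero, zero_add]
    exact sum_sq_le _ _
  rw [zero_add, mul_eq_zero] at hf
  rcases hf with hf | hf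
  · exact absurd hf (by positivity)
  · refine sqrt_eig L hpos _ v t ht ?_
    rw [← sub_eq_zero]
    exact norm_eq_zero.mp (pow_eq_zero_iff (two_ne_zero) |>.mp hf)

include hW hsym hpos in
lemma bwd (hQ : QH W) (i : ℕ) (t : ℝ) (ht : 0 < t) (v : E)
    (h1 : L (i + 2) v = (t : ℂ) • v) (h2 : L (i + 3) v = (t : ℂ) • v) :
    L (i + 1) v = (t : ℂ) • v := by
  obtain ⟨ζ, hζ⟩ := surj L hpos (i + 1) (((t ^ 3 : ℝ) : ℂ) • v)
  have hf : (‖L i (ζ - (t : ℂ) • L (i + 1) v)‖ ^ 2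
      + t ^ 2 * ‖L (i + 1 + 3) (L (i + 1 + 3) v) - ((t ^ 2 : ℝ) : ℂ) • v‖ ^ 2) = 0 := by
    refine fund (N := t ^ 8 * ‖v‖ ^ 2
      + t ^ 2 * ‖L (i + 1 + 5) (L (i + 1 + 4) (L (i + 1 + 3) v))‖ ^ 2)
      (by positivity) fun s _ _ => ?_
    refine ineq L W hW hsym hQ (i + 1) s t v ζ hζ h1 h2 _ ?_
    have hs := sum_sq_le ((adjoint (W + (s : ℂ) • W ^ 2)) (tv (i + 1) s t v ζ (L (i + 1 + 3) v)))
      {i, i + 1 + 1, i + 1 + 2, i + 1 + 3}
    rw [Finset.sum_insert (by simp; omega)] at hs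
    refine le_trans (le_of_eq ?_) hs
    congr 1
    rw [Tadj_apply L W hW hsym, tv_0, show i + 2 = i + 1 + 1 from rfl, tv_1]
    rw [show L i (((s ^ 2 : ℝ) : ℂ) • ζ) + (s : ℂ) • L i (L (i + 1) (((-(s * t) : ℝ) : ℂ) • v))
      = ((s ^ 2 : ℝ) : ℂ) • L i (ζ - (t : ℂ) • L (i + 1) v) by
        simp only [map_smul, map_sub]
        push_cast
        module]
    rw [norm_smul, Complex.norm_real, Real.norm_eq_abs, mul_pow, sq_abs]
    ring
  have hK : ‖L i (ζ - (t : ℂ) • L (i + 1) v)‖ ^ 2 = 0 := by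
    have ha : 0 ≤ ‖L i (ζ - (t : ℂ) • L (i + 1) v)‖ ^ 2 := by positivity
    have hb : 0 ≤ t ^ 2 * ‖L (i + 1 + 3) (L (i + 1 + 3) v) - ((t ^ 2 : ℝ) : ℂ) • v‖ ^ 2 := by
      positivity
    linarith
  have h0 : L i (ζ - (t : ℂ) • L (i + 1) v) = 0 :=
    norm_eq_zero.mp (pow_eq_zero_iff (two_ne_zero) |>.mp hK)
  have h3 : ζ = (t : ℂ) • L (i + 1) v := by
    rw [← sub_eq_zero]
    exact (injective_iff_map_eq_zero _).mp (inj L hpos i) _ h0
  refine sqrt_eig L hpos _ v t ht ?_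
  rw [h3, map_smul] at hζ
  have ht' : (t : ℂ) ≠ 0 := by exact_mod_cast ht.ne'
  have h4 : (t : ℂ) • (L (i + 1) (L (i + 1) v)) = (t : ℂ) • (((t ^ 2 : ℝ) : ℂ) • v) := by
    rw [hζ]
    push_cast
    module
  exact smul_right_injective E ht' h4

include hW hsym hpos in
lemma eig_all (hQ : QH W) (k : ℕ) (t : ℝ) (ht : 0 < t) (v : E)
    (h1 : L (k + 1) v = (t : ℂ) • v) (h2 : L (k + 2) v = (t : ℂ) • v) (n : ℕ) :
    L (n + 1) v = (t : ℂ) • v := by
  have hf : ∀ m, L (k + 1 + m) v = (t : ℂ) • v ∧ L (k + 2 + m) v = (t : ℂ) • v := by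
    intro m
    induction m with
    | zero => exact ⟨h1, h2⟩
    | succ m ih =>
      refine ⟨?_, ?_⟩
      · have := ih.2
        rwa [show k + 2 + m = k + 1 + (m + 1) by omega] at this
      · have := fwd L W hW hsym hpos hQ (k + m) t ht v
          (by rw [show k + m + 1 = k + 1 + m by omega]; exact ih.1)
          (by rw [show k + m + 2 = k + 2 + m by omega]; exact ih.2)
        rwa [show k + m + 3 = k + 2 + (m + 1) by omega] at this
  have hb : ∀ m, m ≤ k → L (k - m + 1) v = (t : ℂ) • v ∧ L (k - m + 2) v = (t : ℂ) • v := by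
    intro m
    induction m with
    | zero => intro _; exact ⟨h1, h2⟩
    | succ m ih =>
      intro hm
      obtain ⟨a, b⟩ := ih (by omega)
      obtain ⟨i, hi⟩ : ∃ i, k - m = i + 1 := ⟨k - m - 1, by omega⟩
      rw [show k - (m + 1) = i by omega]
      rw [hi] at a b
      exact ⟨bwd L W hW hsym hpos hQ i t ht v a b, a⟩
  rcases le_total n k with h | h
  · have := (hb (k - n) (by omega)).1
    rwa [show k - (k - n) = n by omega] at this
  · have := (hf (n - k)).1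
    rwa [show k + 1 + (n - k) = n + 1 by omega] at this

include hW hsym in
lemma mono (hQ : QH W) (k : ℕ) (y : E) : ‖L k y‖ ^ 2 ≤ ‖L (k + 1) y‖ ^ 2 := by
  have h := hQ 0 (lp.single 2 (k + 1) y)
  have h1 : (W + ((0 : ℝ) : ℂ) • W ^ 2) = W := by simp
  rw [h1, W_single L W hW, norm_single'] at h
  refine le_trans ?_ h
  have h2 := sum_sq_le (adjoint W (lp.single 2 (k + 1) y)) {k}
  rw [Finset.sum_singleton, Wadj_apply L W hW hsym, lp.single_apply_self] at h2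
  exact h2

include hW hsym in
lemma invar (hQ : QH W) (k : ℕ) (y : E) (hy : L k y = L (k + 1) y) :
    L k (L k y) = L (k + 1) (L k y) := by
  set a := L k y with ha
  set d := L k a - L (k + 1) a with hd
  have hf : (2 * ‖d‖ ^ 2) = 0 := by
    refine fund (N := ‖L (k + 1) d‖ ^ 2 - ‖L k d‖ ^ 2) (by positivity) fun s hs _ => ?_
    have h1 := mono L W hW hsym hQ k (y + ((s ^ 2 : ℝ) : ℂ) • d)
    rw [map_add, map_add, map_smul, map_smul, ← hy, ← ha, @norm_add_sq ℂ, @norm_add_sq ℂ,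
      norm_smul, norm_smul, inner_smul_right, inner_smul_right] at h1
    have e1 : ⟪a, L k d⟫_ℂ = ⟪a, L (k + 1) d⟫_ℂ + ⟪d, d⟫_ℂ := by
      rw [← hsym k a d, ← hsym (k + 1) a d, ← inner_add_left]
      congr 1
      rw [hd]; abel
    rw [e1, mul_add, map_add] at h1
    have e2 : RCLike.re (((s ^ 2 : ℝ) : ℂ) * ⟪d, d⟫_ℂ) = s ^ 2 * ‖d‖ ^ 2 := by
      have : RCLike.re (((s ^ 2 : ℝ) : ℂ) * ⟪d, d⟫_ℂ) = s ^ 2 * (⟪d, d⟫_ℂ).re :=
        Complex.re_ofReal_mul _ _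
      rw [this]
      congr 1
      exact inner_self_eq_norm_sq (𝕜 := ℂ) d
    rw [e2, Complex.norm_real, Real.norm_eq_abs, mul_pow, mul_pow, sq_abs] at h1
    have h2 : 2 * (s ^ 2 * ‖d‖ ^ 2) ≤ (s ^ 2) ^ 2 * (‖L (k + 1) d‖ ^ 2 - ‖L k d‖ ^ 2) := by
      linarith
    have h3 : 0 < s ^ 2 := by positivity
    calc s ^ 4 * (2 * ‖d‖ ^ 2) = s ^ 2 * (2 * (s ^ 2 * ‖d‖ ^ 2)) := by ring
      _ ≤ s ^ 2 * ((s ^ 2) ^ 2 * (‖L (k + 1) d‖ ^ 2 - ‖L k d‖ ^ 2)) :=
        mul_le_mul_of_nonneg_left h2 h3.le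
      _ = s ^ 6 * (‖L (k + 1) d‖ ^ 2 - ‖L k d‖ ^ 2) := by ring
  have h0 : d = 0 := by
    have : ‖d‖ ^ 2 = 0 := by linarith
    exact norm_eq_zero.mp (pow_eq_zero_iff (two_ne_zero) |>.mp this)
  exact sub_eq_zero.mp h0

include hW hsym hpos in
lemma main_abs (hQ : QH W) (k : ℕ) (x : E) (hx : L (k + 1) x = L (k + 2) x) (n : ℕ) :
    L (n + 1) x = L 1 x := by
  set N : Submodule ℂ E := LinearMap.ker (L (k + 1) - L (k + 2)) with hN
  have hmem : ∀ y, y ∈ N ↔ L (k + 1) y = L (k + 2) y := by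
    intro y
    rw [hN, LinearMap.mem_ker, LinearMap.sub_apply, sub_eq_zero]
  have hinv : ∀ y ∈ N, L (k + 1) y ∈ N := by
    intro y hy
    rw [hmem] at hy ⊢
    exact invar L W hW hsym hQ (k + 1) y hy
  set T : N →ₗ[ℂ] N := (L (k + 1)).restrict hinv with hT
  have hTs : T.IsSymmetric := (hsym (k + 1)).restrict_invariant hinv
  have hb := hTs.orthogonalComplement_iSup_eigenspaces_eq_bot
  have htop : (⨆ μ, Module.End.eigenspace T μ) = ⊤ := by
    rwa [Submodule.orthogonal_eq_bot_iff] at hb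
  set S : Submodule ℂ N := LinearMap.ker ((L (n + 1) - L 1).comp N.subtype) with hS
  have hle : (⨆ μ, Module.End.eigenspace T μ) ≤ S := by
    refine iSup_le fun μ => ?_
    intro y hy
    rw [Module.End.mem_eigenspace_iff] at hy
    have hy' : L (k + 1) (y : E) = μ • (y : E) := by
      have := congrArg (fun z : N => (z : E)) hy
      simpa [hT] using this
    rw [hS, LinearMap.mem_ker, LinearMap.comp_apply, LinearMap.sub_apply, sub_eq_zero]
    change L (n + 1) (y : E) = L 1 (y : E)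
    by_cases hy0 : (y : E) = 0
    · rw [hy0, map_zero, map_zero]
    have hp := hpos (k + 1) _ hy0
    have hs := hsym (k + 1) (y : E) (y : E)
    rw [hy', inner_smul_left, inner_smul_right] at hs
    have hne : ⟪(y : E), (y : E)⟫_ℂ ≠ 0 := inner_self_ne_zero.mpr hy0
    have hconj : (starRingEnd ℂ) μ = μ := mul_right_cancel₀ hne hs
    obtain ⟨t, ht⟩ : ∃ t : ℝ, μ = (t : ℂ) := ⟨μ.re, (Complex.conj_eq_iff_re.mp hconj).symm⟩
    rw [hy', inner_smul_left, hconj, ht, Complex.re_ofReal_mul] at hp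
    have h3 : 0 ≤ (⟪(y : E), (y : E)⟫_ℂ).re := inner_self_nonneg (𝕜 := ℂ)
    have htp : 0 < t := by
      by_contra hcon
      have : t * (⟪(y : E), (y : E)⟫_ℂ).re ≤ 0 := mul_nonpos_of_nonpos_of_nonneg (not_lt.mp hcon) h3
      linarith
    have h1 : L (k + 1) (y : E) = (t : ℂ) • (y : E) := by rw [hy', ht]
    have h2 : L (k + 2) (y : E) = (t : ℂ) • (y : E) := by
      rw [← (hmem _).mp y.2, h1]
    rw [eig_all L W hW hsym hpos hQ k t htp _ h1 h2 n, show (1 : ℕ) = 0 + 1 from rfl,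
      eig_all L W hW hsym hpos hQ k t htp _ h1 h2 0]
  rw [htop] at hle
  have hxS : (⟨x, (hmem x).mpr hx⟩ : N) ∈ S := hle Submodule.mem_top
  rw [hS, LinearMap.mem_ker, LinearMap.comp_apply, LinearMap.sub_apply, sub_eq_zero] at hxS
  exact hxS

end core

lemma cubic_quadratic {H : Type} [NormedAddCommGroup H] [InnerProductSpace ℂ H] [CompleteSpace H]
    {T : H →L[ℂ] H} (h : CubicallyHyponormal T) : QuadraticallyHyponormal T := by
  intro l
  have h1 := h l 0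
  have e : cubicPencil T l 0 = pencil T l := by
    unfold cubicPencil opAdd opSMul
    rw [zero_smul, add_zero]
  rwa [e] at h1

lemma QH_of {E : Type} [NormedAddCommGroup E] [InnerProductSpace ℂ E] [FiniteDimensional ℂ E]
    (W : Seq E →L[ℂ] Seq E) (hQ : QuadraticallyHyponormal W) : QH W := by
  intro s y
  have h := hypo_norm (hQ (s : ℂ)) y
  have e : pencil W (s : ℂ) = W + (s : ℂ) • W ^ 2 := by
    unfold pencil opAdd opSMul opMul
    rw [pow_two]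
    rfl
  rwa [e] at h

/-- **Main result.** Local propagation, in both directions, for cubically hyponormal
matrix-valued weighted shifts (Q1), and more generally for quadratically hyponormal ones. -/
theorem result (p : ℕ) (A : ℕ → Matrix (Fin p) (Fin p) ℂ) (hA : PositiveWeights A)
    (W : Op p) (hW : IsWeightedShift A W) :
    (Cub W → LocallyPropagates A) ∧ (Quad W → LocallyPropagates A) := by
  have h : Quad W → LocallyPropagates A := by
    intro hQ x k hk hx n hn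
    obtain ⟨k, rfl⟩ : ∃ i, k = i + 1 := ⟨k - 1, by omega⟩
    obtain ⟨n, rfl⟩ : ∃ i, n = i + 1 := ⟨n - 1, by omega⟩
    have hsym : ∀ n, (Matrix.toEuclideanLin (A n)).IsSymmetric := fun n =>
      Matrix.isSymmetric_toEuclideanLin_iff.mpr (hA n).isHermitian
    have hpos : ∀ n (z : EuclideanSpace ℂ (Fin p)), z ≠ 0 →
        0 < (⟪Matrix.toEuclideanLin (A n) z, z⟫_ℂ).re := by
      intro n z hz
      have hz' : (WithLp.ofLp z : Fin p → ℂ) ≠ 0 := by
        intro h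
        exact hz ((WithLp.ofLp_injective 2) (by simpa using h))
      have h1 := (hA n).re_dotProduct_pos hz'
      rw [hsym n z z, EuclideanSpace.inner_eq_star_dotProduct, dotProduct_comm]
      simpa using h1
    have hQ' : QH (E := EuclideanSpace ℂ (Fin p)) W := QH_of W hQ
    have hW' : ∀ x : Seq (EuclideanSpace ℂ (Fin p)), (show Seq (EuclideanSpace ℂ (Fin p)) from W x) 0
        = 0 ∧ ∀ n : ℕ, (show Seq (EuclideanSpace ℂ (Fin p)) from W x) (n + 1)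
          = (fun n => Matrix.toEuclideanLin (A n)) n (x n) := by
      intro x
      refine ⟨WithLp.ofLp_injective 2 (hW x).1, fun n => WithLp.ofLp_injective 2 ?_⟩
      exact (hW x).2 n
    have h1 := main_abs (fun n => Matrix.toEuclideanLin (A n)) W hW' hsym hpos hQ' k
      (WithLp.toLp 2 x) (by
        dsimp only
        rw [Matrix.toLpLin_toLp, Matrix.toLpLin_toLp]
        simp [hx]) n
    dsimp only at h1
    rw [Matrix.toLpLin_toLp, Matrix.toLpLin_toLp] at h1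
    simpa using h1
  exact ⟨fun hC => h (cubic_quadratic hC), h⟩

end

end Pool.Agent.Results.MP_c6f870_an.LocalPropagation
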